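import Pool.Agent.W285.UB.Stm
import Pool.Agent.H58B.Low
import Pool.Agent.H58W.HtMahler

set_option autoImplicit false

/-! UB-MINP (helper976). -/

namespace Pool.Agent.W976.UB

open Pool.Agent.W285.UB NumberField Height Module Polynomial
open Pool.Agent.Helper259.AbsHt
open Pool.Agent.Helper259.HtPoly (cv)
open Pool.Agent.H58W (dens isInt cvec cvec_eq cvec_deg cvec_gcd)

lemma swap_ht (a b : Qbar) : absLogHeight ![a, b] = absLogHeight ![b, a] := by
  have key : ∀ a b : Qbar, absLogHeight ![a, b] ≤ absLogHeight ![b, a] := by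
    intro a b
    have h := absLogHeight_comp_le (![1, 0] : Fin 2 → Fin 2) ![b, a]
    have e : (![b, a] : Fin 2 → Qbar) ∘ ![1, 0] = ![a, b] := by
      funext i
      fin_cases i <;> rfl
    rwa [e] at h
  exact le_antisymm (key a b) (key b a)

lemma cv_ne {n : ℕ} {f : Qbar[X]} (hf : f ≠ 0) (hn : f.natDegree ≤ n) : cv n f ≠ 0 := by
  intro h
  have h1 := congrFun h ⟨f.natDegree, by omega⟩
  simp only [cv, Pi.zero_apply] at h1
  exact hf (leadingCoeff_eq_zero.1 h1)

/-- multiplication by a linear factor -/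
lemma mul_lin (E : ℕ) : ∃ C1 : ℝ, 0 ≤ C1 ∧ ∀ (f : Qbar[X]) (a : Qbar), f ≠ 0 → f.natDegree ≤ E →
    absLogHeight (cv E (f * (X - C a))) ≤ C1 + absLogHeight (cv E f) + absLogHeight ![1, a] := by
  classical
  set A : Fin (E + 1) × (Fin (E + 1) × Fin 2) → Qbar := fun x =>
    if x.2.2 = 0 then (if (x.2.1 : ℕ) + 1 = x.1 then 1 else 0) else
      (if x.2.1 = x.1 then -1 else 0) with hA
  refine ⟨Real.log (Nat.card (Fin (E + 1) × Fin 2)) + absLogHeight A, ?_, ?_⟩
  · have h1 := absLogHeight_nonneg A
    have h2 : 0 ≤ Real.log (Nat.card (Fin (E + 1) × Fin 2)) := Real.log_natCast_nonneg _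
    linarith
  intro f a hf hE
  have h := absLogHeight_linear A (fun x : Fin (E + 1) × Fin 2 => cv E f x.1 * ![1, a] x.2)
  have hne : (![1, a] : Fin 2 → Qbar) ≠ 0 := by
    intro h
    have := congrFun h 0
    simp at this
  rw [absLogHeight_segre (cv_ne hf hE) hne] at h
  have e : (fun j => ∑ i : Fin (E + 1) × Fin 2, A (j, i) * (cv E f i.1 * ![1, a] i.2)) =
      cv E (f * (X - C a)) := by
    funext j
    rw [Fintype.sum_prod_type]
    simp only [Fin.sum_univ_two, hA, if_true, Matrix.cons_val_zero, Matrix.cons_val_one,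
      Fin.isValue, one_ne_zero, if_false, mul_one]
    rw [Finset.sum_add_distrib]
    have e2 : ∑ x : Fin (E + 1), (if x = j then (-1 : Qbar) else 0) * (cv E f x * a) =
        -(f.coeff j * a) := by
      rw [Finset.sum_eq_single j]
      · simp [cv]
      · intro b _ hb
        simp [hb]
      · intro h
        exact absurd (Finset.mem_univ j) h
    rw [e2]
    simp only [cv, mul_sub, coeff_sub, coeff_mul_C]
    obtain ⟨j, hj⟩ := j
    rcases j with _ | j
    · simp
    · rw [Finset.sum_eq_single (⟨j, by omega⟩ : Fin (E + 1))]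
      · simp [sub_eq_add_neg]
      · intro b _ hb
        have : ¬ ((b : ℕ) + 1 = j + 1) := by
          intro h
          apply hb
          ext
          simp
          omega
        rw [if_neg this, zero_mul]
      · intro h
        exact absurd (Finset.mem_univ _) h
  rw [e] at h
  linarith

lemma prod_ht (E : ℕ) : ∃ C1 : ℝ, 0 ≤ C1 ∧ ∀ (S : Finset Qbar) (h : ℝ), S.card ≤ E →
    (∀ s ∈ S, absLogHeight ![1, s] = h) →
    absLogHeight (cv E (∏ s ∈ S, (X - C s))) ≤ C1 + S.card * (C1 + h) := by
  classical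
  obtain ⟨C1, hC1, hmul⟩ := mul_lin E
  set C0 : ℝ := absLogHeight (cv E (1 : Qbar[X])) with hC0
  have hC00 : 0 ≤ C0 := absLogHeight_nonneg _
  refine ⟨C1 + C0, by positivity, ?_⟩
  intro S h hS hh
  have key : ∀ T : Finset Qbar, T ⊆ S →
      absLogHeight (cv E (∏ s ∈ T, (X - C s))) ≤ C0 + T.card * (C1 + h) := by
    intro T
    induction T using Finset.induction_on with
    | empty => intro _; simp [hC0]
    | insert a T ha ih =>
      intro hT
      have hT' : T ⊆ S := (Finset.subset_insert a T).trans hT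
      have haS : a ∈ S := hT (Finset.mem_insert_self a T)
      have hm : (∏ s ∈ T, (X - C s)).Monic := monic_prod_of_monic _ _ fun s _ => monic_X_sub_C s
      have hdeg : (∏ s ∈ T, (X - C s)).natDegree ≤ E := by
        rw [natDegree_prod_of_monic _ _ fun s _ => monic_X_sub_C s]
        simp only [natDegree_X_sub_C, Finset.sum_const, smul_eq_mul, mul_one]
        exact (Finset.card_le_card hT').trans hS
      rw [Finset.prod_insert ha, mul_comm, Finset.card_insert_of_notMem ha]
      have h1 := hmul _ a hm.ne_zero hdeg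
      have h2 := ih hT'
      rw [hh a haS] at h1
      push_cast
      linarith
  have h1 := key S (Finset.Subset.refl S)
  have h2 : (S.card : ℝ) * (C1 + h) ≤ S.card * (C1 + C0 + h) := by
    apply mul_le_mul_of_nonneg_left _ (Nat.cast_nonneg _)
    linarith
  linarith

theorem minp : S_MINP := by
  classical
  intro E
  obtain ⟨C1, hC1, hprod⟩ := prod_ht E
  refine ⟨Real.exp (C1 + E * C1), Real.one_le_exp (by positivity), ?_⟩
  intro α hE
  set f : ℚ[X] := minpoly ℚ α with hf
  have hmon : f.Monic := minpoly.monic (isInt α)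
  set F : Qbar[X] := f.map (algebraMap ℚ Qbar) with hF
  have hsplit : F.Splits := IsAlgClosed.splits _
  have hsep : F.Separable := (minpoly.irreducible (isInt α)).separable.map
  have hnodup : F.roots.Nodup := nodup_roots hsep
  set S : Finset Qbar := F.roots.toFinset with hS
  have hFprod : F = ∏ s ∈ S, (X - C s) := by
    have h1 := hsplit.eq_prod_roots
    rw [(hmon.map _).leadingCoeff, C_1, one_mul] at h1
    refine h1.trans ?_
    show _ = Multiset.prod (Multiset.map (fun s => X - C s) (Multiset.toFinset F.roots).val)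
    rw [Multiset.toFinset_val, hnodup.dedup]
  have hconj : ∀ s ∈ S, absLogHeight ![1, s] = absLogHeight ![1, α] := by
    intro s hs
    have h1 : aeval s f = 0 := by
      have : s ∈ F.roots := Multiset.mem_toFinset.mp hs
      rw [mem_roots', IsRoot.def, hF, eval_map_algebraMap] at this
      exact this.2
    have h2 : minpoly ℚ s = f :=
      (minpoly.eq_of_irreducible_of_monic (minpoly.irreducible (isInt α)) h1 hmon).symm
    have hcl : IsAlgClosure ℚ Qbar := ⟨inferInstance, ⟨fun z => (isInt z).isAlgebraic⟩⟩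
    have hn : Normal ℚ Qbar := IsAlgClosure.normal ℚ Qbar
    obtain ⟨σ, hσ⟩ := (Normal.minpoly_eq_iff_mem_orbit Qbar).mp h2
    have h3 : σ α = s := hσ
    rw [← h3]
    exact H58B.ht_conj σ α
  have hcard : S.card = f.natDegree := by
    have h1 : F.natDegree = S.card := by
      rw [hFprod, natDegree_prod_of_monic _ _ (fun s _ => monic_X_sub_C s)]
      simp
    rw [← h1, hF, hmon.natDegree_map]
  have hcE : S.card ≤ E := by rw [hcard]; exact hE
  set h : ℝ := absLogHeight ![1, α] with hh
  have hh0 : 0 ≤ h := absLogHeight_nonneg _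
  have hF1 : absLogHeight (cv E F) ≤ C1 + E * C1 + E * h := by
    have h1 := hprod S h hcE hconj
    rw [← hFprod] at h1
    have h2 : (S.card : ℝ) * (C1 + h) ≤ E * (C1 + h) :=
      mul_le_mul_of_nonneg_right (by exact_mod_cast hcE) (by positivity)
    linarith
  set c : ℕ := sInf (dens α) with hc
  have hcm := H58W.sInf_mem α
  have hc0 : 0 < c := hcm.1
  have hcv : (fun i : Fin (E + 1) => ((cvec α i : ℤ) : Qbar)) = (c : Qbar) • cv E F := by
    funext i
    have h1 := cvec_eq α i
    have h2 := congrArg (algebraMap ℚ Qbar) h1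
    simp only [map_intCast, map_mul, map_natCast] at h2
    simp only [Pi.smul_apply, smul_eq_mul, cv, hF, coeff_map]
    exact h2
  have hint := absLogHeight_int (fun i : Fin (E + 1) => cvec α i) (cvec_gcd α E hE)
  rw [hcv, absLogHeight_smul _ (by exact_mod_cast hc0.ne')] at hint
  have hbd : ∀ i : Fin (E + 1), (|cvec α i| : ℝ) ≤ Real.exp (C1 + E * C1) * ht ![α, 1] ^ E := by
    intro i
    have h1 : |cvec α i| ≤ ⨆ i : Fin (E + 1), |cvec α i| :=
      le_ciSup (f := fun i : Fin (E + 1) => |cvec α i|) (Set.finite_range _).bddAbove i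
    have h2 : ((|cvec α i| : ℤ) : ℝ) ≤ ((⨆ i : Fin (E + 1), |cvec α i| : ℤ) : ℝ) := by
      exact_mod_cast h1
    have hpos : (0 : ℝ) < ((⨆ i : Fin (E + 1), |cvec α i| : ℤ) : ℝ) := by
      have h3 : |cvec α ((⟨f.natDegree, by omega⟩ : Fin (E + 1)) : ℕ)| ≤
          ⨆ i : Fin (E + 1), |cvec α i| :=
        le_ciSup (f := fun i : Fin (E + 1) => |cvec α i|) (Set.finite_range _).bddAbove _
      have h4 : cvec α ((⟨f.natDegree, by omega⟩ : Fin (E + 1)) : ℕ) = c := cvec_deg α
      rw [h4] at h3
      have h5 : (0 : ℤ) < ⨆ i : Fin (E + 1), |cvec α i| := by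
        refine lt_of_lt_of_le ?_ h3
        rw [abs_pos]
        exact_mod_cast hc0.ne'
      exact_mod_cast h5
    have h6 : ((⨆ i : Fin (E + 1), |cvec α i| : ℤ) : ℝ) = Real.exp (absLogHeight (cv E F)) := by
      rw [hint, Real.exp_log hpos]
    have h7 : ht ![α, 1] ^ E = Real.exp (E * h) := by
      unfold ht
      rw [swap_ht, ← hh, ← Real.exp_nat_mul]
    rw [h7, ← Real.exp_add]
    have h8 : Real.exp (absLogHeight (cv E F)) ≤ Real.exp (C1 + E * C1 + E * h) :=
      Real.exp_le_exp.2 hF1
    rw [← h6] at h8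
    have h9 : (|cvec α i| : ℝ) = ((|cvec α i| : ℤ) : ℝ) := by push_cast; rfl
    rw [h9]
    exact h2.trans h8
  set P : ℤ[X] := ∑ i ∈ Finset.range (E + 1), monomial i (cvec α i) with hP
  have hco : ∀ j, P.coeff j = if j < E + 1 then cvec α j else 0 := by
    intro j
    rw [hP, finsetSum_coeff]
    simp only [coeff_monomial]
    rw [Finset.sum_ite_eq']
    simp
  have hcz : ∀ j, ¬ j < E + 1 → cvec α j = 0 := by
    intro j hj
    have h1 := cvec_eq α j
    have h2 : f.natDegree < j := by omega
    rw [coeff_eq_zero_of_natDegree_lt h2, mul_zero] at h1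
    exact_mod_cast h1
  have hco' : ∀ j, P.coeff j = cvec α j := by
    intro j
    rw [hco]
    split_ifs with h
    · rfl
    · exact (hcz j h).symm
  have hmap : P.map (algebraMap ℤ ℚ) = C (c : ℚ) * f := by
    ext j
    rw [coeff_map, hco', coeff_C_mul]
    exact cvec_eq α j
  refine ⟨P, ?_, ?_, ?_, ?_⟩
  · intro h0
    have h1 := hco' f.natDegree
    rw [h0, coeff_zero, cvec_deg] at h1
    omega
  · rw [natDegree_le_iff_coeff_eq_zero]
    intro j hj
    rw [hco, if_neg (by omega)]
  · have h1 : aeval α (P.map (algebraMap ℤ ℚ)) = 0 := by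
      rw [hmap, map_mul, minpoly.aeval, mul_zero]
    rwa [aeval_map_algebraMap] at h1
  · intro j
    rw [hco']
    by_cases hj : j < E + 1
    · exact hbd ⟨j, hj⟩
    · rw [hcz j hj]
      have : 0 ≤ Real.exp (C1 + E * C1) * ht ![α, 1] ^ E := by
        unfold ht
        positivity
      simpa using this

end Pool.Agent.W976.UB
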