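import Pool.Agent.W285.UB.Stm

set_option autoImplicit false

/-! UB-REAL (helper976). -/

namespace Pool.Agent.W976.UB

open Pool.Agent.W285.UB Finset

lemma sum_sq (M : ℕ) : ∑ k ∈ Icc 1 M, 1 / (k : ℝ) ^ 2 ≤ 2 := by
  have h : ∀ M : ℕ, ∑ k ∈ Icc 1 (M + 1), 1 / (k : ℝ) ^ 2 ≤ 2 - 1 / ((M : ℝ) + 1) := by
    intro M
    induction M with
    | zero => norm_num
    | succ m ih =>
      rw [Finset.sum_Icc_succ_top (by omega)]
      have hm : (0 : ℝ) ≤ m := Nat.cast_nonneg m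
      have h1 : 1 / (((m + 1 + 1 : ℕ) : ℝ)) ^ 2 ≤ 1 / ((m : ℝ) + 1) - 1 / ((m + 1 : ℕ) + 1 : ℝ) := by
        push_cast
        rw [div_sub_div _ _ (by positivity) (by positivity),
          div_le_div_iff₀ (by positivity) (by positivity)]
        nlinarith
      linarith
  rcases M with _ | M
  · norm_num
  · have h1 := h M
    have h2 : 0 ≤ 1 / ((M : ℝ) + 1) := by positivity
    linarith

theorem real : S_REAL := by
  intro n d a p q hn hp had hq C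
  refine ⟨3 ^ (n * d) * (2 + |C| ^ (((a : ℝ) + 1) / p)), fun H M hH hM => ?_⟩
  have hH1 : (1 : ℝ) ≤ H := by exact_mod_cast hH
  have hH0 : (0 : ℝ) < H := by linarith
  have hnR : (1 : ℝ) ≤ n := by exact_mod_cast hn
  have hpR : (1 : ℝ) ≤ p := by exact_mod_cast hp
  have hp0 : (0 : ℝ) < p := by linarith
  have hnd : a + 2 ≤ n * d := had.trans (Nat.le_mul_of_pos_left d hn)
  have hterm : ∀ k ∈ Icc 1 M, (k : ℝ) ^ a * (1 + 2 * H / k) ^ (n * d) ≤
      3 ^ (n * d) * ((H : ℝ) ^ (n * d) * (1 / (k : ℝ) ^ 2) + (M : ℝ) ^ a) := by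
    intro k hk
    rw [mem_Icc] at hk
    have hk1 : (1 : ℝ) ≤ k := by exact_mod_cast hk.1
    have hk0 : (0 : ℝ) < k := by linarith
    have hkM : (k : ℝ) ≤ M := by exact_mod_cast hk.2
    rcases le_total (k : ℝ) H with h | h
    · have h1 : 1 + 2 * (H : ℝ) / k ≤ 3 * H / k := by
        have : 1 ≤ (H : ℝ) / k := by rw [le_div_iff₀ hk0]; linarith
        have e : 3 * (H : ℝ) / k = H / k + 2 * H / k := by ring
        linarith
      have h2 : (1 + 2 * (H : ℝ) / k) ^ (n * d) ≤ (3 * H / k) ^ (n * d) :=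
        pow_le_pow_left₀ (by positivity) h1 _
      have h3 : (k : ℝ) ^ a * (3 * H / k) ^ (n * d) ≤
          3 ^ (n * d) * ((H : ℝ) ^ (n * d) * (1 / (k : ℝ) ^ 2)) := by
        rw [div_pow, mul_pow]
        have h4 : (k : ℝ) ^ a / (k : ℝ) ^ (n * d) ≤ 1 / (k : ℝ) ^ 2 := by
          rw [div_le_div_iff₀ (by positivity) (by positivity), one_mul, ← pow_add]
          exact pow_le_pow_right₀ hk1 hnd
        calc (k : ℝ) ^ a * (3 ^ (n * d) * (H : ℝ) ^ (n * d) / (k : ℝ) ^ (n * d))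
            = 3 ^ (n * d) * ((H : ℝ) ^ (n * d) * ((k : ℝ) ^ a / (k : ℝ) ^ (n * d))) := by ring
          _ ≤ _ := by gcongr
      have h5 : (0 : ℝ) ≤ 3 ^ (n * d) * (M : ℝ) ^ a := by positivity
      calc (k : ℝ) ^ a * (1 + 2 * H / k) ^ (n * d) ≤ (k : ℝ) ^ a * (3 * H / k) ^ (n * d) := by
            gcongr
        _ ≤ _ := h3
        _ ≤ _ := by rw [mul_add]; linarith
    · have h1 : 1 + 2 * (H : ℝ) / k ≤ 3 := by
        have : (H : ℝ) / k ≤ 1 := by rw [div_le_one hk0]; exact h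
        have e : 2 * (H : ℝ) / k = 2 * (H / k) := by ring
        rw [e]
        linarith
      have h2 : (1 + 2 * (H : ℝ) / k) ^ (n * d) ≤ 3 ^ (n * d) :=
        pow_le_pow_left₀ (by positivity) h1 _
      have h3 : (k : ℝ) ^ a ≤ (M : ℝ) ^ a := pow_le_pow_left₀ hk0.le hkM _
      have h5 : (0 : ℝ) ≤ 3 ^ (n * d) * ((H : ℝ) ^ (n * d) * (1 / (k : ℝ) ^ 2)) := by positivity
      calc (k : ℝ) ^ a * (1 + 2 * H / k) ^ (n * d) ≤ (M : ℝ) ^ a * 3 ^ (n * d) :=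
            mul_le_mul h3 h2 (by positivity) (by positivity)
        _ ≤ _ := by rw [mul_add]; linarith
  have hM1 : (M : ℝ) ^ (a + 1) ≤ |C| ^ (((a : ℝ) + 1) / p) * (H : ℝ) ^ ((d : ℝ) + 3 / 4) := by
    have h0 : (M : ℝ) ^ p ≤ |C| * (H : ℝ) ^ q :=
      hM.trans (mul_le_mul_of_nonneg_right (le_abs_self C) (by positivity))
    have h1 : ((M : ℝ) ^ p) ^ (((a : ℝ) + 1) / p) ≤ (|C| * (H : ℝ) ^ q) ^ (((a : ℝ) + 1) / p) :=
      Real.rpow_le_rpow (by positivity) h0 (by positivity)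
    have h2 : ((M : ℝ) ^ p) ^ (((a : ℝ) + 1) / p) = (M : ℝ) ^ (a + 1) := by
      rw [← Real.rpow_natCast (M : ℝ) p, ← Real.rpow_mul (Nat.cast_nonneg M),
        mul_div_cancel₀ _ hp0.ne', ← Real.rpow_natCast]
      push_cast
      rfl
    rw [h2, Real.mul_rpow (abs_nonneg _) (by positivity)] at h1
    refine h1.trans ?_
    apply mul_le_mul_of_nonneg_left _ (by positivity)
    rw [← Real.rpow_natCast (H : ℝ) q, ← Real.rpow_mul hH0.le]
    apply Real.rpow_le_rpow_of_exponent_le hH1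
    refine le_trans (le_of_eq ?_) hq
    ring
  have hexp1 : (H : ℝ) ^ (n * d) ≤ (H : ℝ) ^ ((n : ℝ) * (d + 1) - 1 / 4) := by
    rw [← Real.rpow_natCast]
    apply Real.rpow_le_rpow_of_exponent_le hH1
    push_cast
    linarith
  have hexp2 : (H : ℝ) ^ ((d : ℝ) + 3 / 4) ≤ (H : ℝ) ^ ((n : ℝ) * (d + 1) - 1 / 4) := by
    apply Real.rpow_le_rpow_of_exponent_le hH1
    have hd0 : (0 : ℝ) ≤ d + 1 := by positivity
    nlinarith
  calc ∑ k ∈ Icc 1 M, (k : ℝ) ^ a * (1 + 2 * H / k) ^ (n * d)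
      ≤ ∑ k ∈ Icc 1 M, 3 ^ (n * d) * ((H : ℝ) ^ (n * d) * (1 / (k : ℝ) ^ 2) + (M : ℝ) ^ a) :=
        sum_le_sum hterm
    _ = 3 ^ (n * d) * ((H : ℝ) ^ (n * d) * ∑ k ∈ Icc 1 M, 1 / (k : ℝ) ^ 2 + (M : ℝ) ^ (a + 1)) := by
        rw [← mul_sum, sum_add_distrib, ← mul_sum, sum_const, Nat.card_Icc, nsmul_eq_mul]
        simp
        ring
    _ ≤ 3 ^ (n * d) * ((H : ℝ) ^ ((n : ℝ) * (d + 1) - 1 / 4) * 2 +
        |C| ^ (((a : ℝ) + 1) / p) * (H : ℝ) ^ ((n : ℝ) * (d + 1) - 1 / 4)) := by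
        have h1 := sum_sq M
        have h2 : (H : ℝ) ^ (n * d) * ∑ k ∈ Icc 1 M, 1 / (k : ℝ) ^ 2 ≤
            (H : ℝ) ^ ((n : ℝ) * (d + 1) - 1 / 4) * 2 :=
          mul_le_mul hexp1 h1 (sum_nonneg fun k _ => by positivity) (by positivity)
        have h3 : (M : ℝ) ^ (a + 1) ≤
            |C| ^ (((a : ℝ) + 1) / p) * (H : ℝ) ^ ((n : ℝ) * (d + 1) - 1 / 4) :=
          hM1.trans (mul_le_mul_of_nonneg_left hexp2 (by positivity))
        gcongr
    _ = _ := by ring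

end Pool.Agent.W976.UB
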